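import Mathlib
import Pool.Agent.Helper39.ET2.Key
import Pool.Agent.Helper39.FAM.Pl

set_option autoImplicit false

/-! Classes modulo a subgroup and symbols (definitions of helper39's first file). -/

namespace Pool.Agent.Helper24.ETC

open scoped TensorProduct
open Pool.Agent.ETC
open Pool.Agent.Helper58.ET (St Ns)
open Pool.Agent.Helper39.ET2 (Nd Split Indec)

section

variable {F : Type} [Field F]

/-- the group of `p`-th powers -/
def pw (F : Type) [Field F] (p : ℕ) : Subgroup Fˣ := (powMonoidHom p : Fˣ →* Fˣ).range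

lemma mem_pw {p : ℕ} {a : Fˣ} : a ∈ pw F p ↔ ∃ b : Fˣ, b ^ p = a := Iff.rfl

/-- the group `F*/T` -/
def Cl (T : Subgroup Fˣ) : Type := Fˣ ⧸ T

instance instCl (T : Subgroup Fˣ) : CommGroup (Cl T) := inferInstanceAs (CommGroup (Fˣ ⧸ T))

/-- the class modulo `T` -/
def cl (T : Subgroup Fˣ) : Fˣ →* Cl T := QuotientGroup.mk' T

lemma cl_surj (T : Subgroup Fˣ) : Function.Surjective (cl T) := QuotientGroup.mk'_surjective T

lemma cl_eq_one {T : Subgroup Fˣ} {u : Fˣ} : cl T u = 1 ↔ u ∈ T :=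
  QuotientGroup.eq_one_iff u

/-- the symbol `{a, b}` is zero in `K₂(F)/T` -/
def Sy (T : Subgroup Fˣ) (a b : Fˣ) : Prop :=
  Additive.ofMul (cl T a) ⊗ₜ[ℤ] Additive.ofMul (cl T b) ∈ St (cl T)

lemma sy_iff {T : Subgroup Fˣ} {a b : Fˣ} : Sy T a b ↔ cl T b ∈ Ns (cl T) (cl T a) := Iff.rfl

variable {p : ℕ} {ζ : F} {R : ValuationSubring F}

lemma pow_mem_TR (a : Fˣ) : a ^ p ∈ TR p ζ R := Subgroup.mem_sup_left ⟨a, rfl⟩

lemma one_unit_mem (hl : R.valuation (1 - ζ) = 1) {u : Fˣ} (hu : R.valuation ((u : F) - 1) < 1) :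
    u ∈ TR p ζ R := by
  apply Subgroup.mem_sup_right
  apply Subgroup.subset_closure
  change Sm p ζ R ((u : F) - 1)
  unfold Sm
  rwa [hl, one_pow]

end

end Pool.Agent.Helper24.ETC
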