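import Pool.Agent.Helper24.ETC.V2L
import Pool.Agent.Helper25.ETC.Four
import Pool.Agent.ETC.All

set_option autoImplicit false

/-! **SINGLEA**: every place and every ordering is above a piece. -/

namespace Pool.Agent.Helper24.ETC

open Pool.Agent.ETC
open Pool.Agent.Helper58.ET (St Ns)
open Pool.Agent.Helper58.EU (Ordg)
open Pool.Agent.Helper39.ET2 (Nd Split Indec)

section

variable {F : Type} [Field F] {p : ℕ} {ζ : F} {R : ValuationSubring F}

lemma v1_ne_top (h : V1 p ζ R) : TR p ζ R ≠ ⊤ := by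
  intro e
  obtain ⟨x, hx⟩ := h.nc 1
  apply hx 0
  rw [e]
  exact Subgroup.mem_top _

lemma v2_ne_top (hp : p.Prime) (hζ : IsPrimitiveRoot ζ p) (h : V2 p R) : TR p ζ R ≠ ⊤ := by
  intro e
  obtain ⟨π, h1, h2, -, -⟩ := h.unif
  have hπ : π ∈ TR p ζ R := by
    rw [e]
    exact Subgroup.mem_top _
  rw [mem_TR hp.ne_zero hζ.pow_eq_one (hζ.ne_one hp.one_lt)] at hπ
  obtain ⟨f, x, hx, hfx⟩ := hπ
  have hx1 : R.valuation x < 1 := hx.lt_one hp.ne_zero hζ.pow_eq_one
  have h3 : R.valuation (π : F) = R.valuation (f : F) ^ p := by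
    rw [hfx, map_mul, map_pow, Valuation.map_one_add_of_lt _ hx1, mul_one]
  have hπ0 : 0 < R.valuation (π : F) := zero_lt_iff.2 ((Valuation.ne_zero_iff _).2 π.ne_zero)
  have hf1 : R.valuation (f : F) < 1 := by
    by_contra hc
    rw [not_lt] at hc
    have := one_le_pow₀ hc (n := p)
    rw [← h3] at this
    exact absurd this (not_le.2 h1)
  have h4 := h2 _ hf1
  have h5 : R.valuation (f : F) ^ p ≤ R.valuation (π : F) ^ p := pow_le_pow_left₀ zero_le h4 p
  have h6 : R.valuation (π : F) ^ p < R.valuation (π : F) :=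
    pow_lt_self_of_lt_one₀ hπ0 h1 hp.one_lt
  rw [← h3] at h5
  exact absurd (lt_of_le_of_lt h5 h6) (lt_irrefl _)

/-- the symbols at an admissible place of type `V1` are indecomposable -/
lemma indec_V1 [Fact p.Prime] (hl : R.valuation (1 - ζ) = 1) (h : V1 p ζ R) (hx : NX p ζ R) :
    Indec (cl (TR p ζ R)) (Ns (cl (TR p ζ R))) := by
  by_cases hneg : (-1 : Fˣ) ∈ TR p ζ R
  · exact indec_place hl h (Or.inl hneg)
  by_cases hex : ∀ c : Fˣ, ∃ y : Fˣ, y ∉ TR p ζ R ∧ -y ∉ TR p ζ R ∧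
      c * y ∉ TR p ζ R ∧ -(c * y) ∉ TR p ζ R
  · exact indec_place hl h (Or.inr hex)
  · have hp2 : p = 2 := by
      by_contra hp
      have hodd : Odd p := (Fact.out : p.Prime).odd_of_ne_two hp
      exact hneg (Subgroup.mem_sup_left ⟨-1, by rw [powMonoidHom_apply, hodd.neg_one_pow]⟩)
    subst hp2
    push Not at hex
    obtain ⟨t, ht⟩ := hex
    refine Pool.Agent.Helper25.ETC.indec_four hl h hx hneg (t := t) fun y => ?_
    by_cases h1 : y ∈ TR 2 ζ R
    · exact Or.inl h1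
    by_cases h2 : -y ∈ TR 2 ζ R
    · exact Or.inr (Or.inl h2)
    by_cases h3 : t * y ∈ TR 2 ζ R
    · exact Or.inr (Or.inr (Or.inl h3))
    · exact Or.inr (Or.inr (Or.inr (ht y h1 h2 h3)))

end

end Pool.Agent.Helper24.ETC

namespace Pool.Agent.ETC

open Pool.Agent.Helper58.EU (Ordg)

/-- **SINGLEA** -/
theorem t_SINGLEA (hUP : S_PCLUP) : S_SINGLEA := by
  intro p _ F K _ _ _ ζ hζ hP I _ T hO hG _
  classical
  have hp : p.Prime := Fact.out
  have hpw : ∀ i, Pool.Agent.Helper24.ETC.pw F p ≤ T i := by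
    rintro i _ ⟨c, rfl⟩
    exact hO.pow i c
  have hg : Pool.Agent.Helper24.ETC.Glue p T := ⟨hO.pow, hO.onto, fun a b => (hG a b).1⟩
  refine ⟨fun R hR => ?_, ?_⟩
  · obtain ⟨hpl, hnx⟩ := hR
    rcases hpl with h1 | h2
    · have hl : R.valuation (1 - ζ) = 1 := lam_of_pv hp hζ h1.pv
      exact Pool.Agent.Helper24.ETC.single T (fun a b => (hG a b).1) (fun a b => (hG a b).2)
        hO.onto (by rintro _ ⟨c, rfl⟩; exact Pool.Agent.Helper24.ETC.pow_mem_TR c)
        (Pool.Agent.Helper24.ETC.v1_ne_top h1) (Pool.Agent.Helper24.ETC.nd_place hl h1)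
        (Pool.Agent.Helper24.ETC.indec_V1 hl h1 hnx)
    · obtain ⟨W, rfl⟩ := Pool.Agent.Helper24.ETC.exists_over R K
      have htop := V2.top hp hζ h2
      exact Pool.Agent.Helper24.ETC.single_lf hP hp hζ htop hg
        (Pool.Agent.Helper24.ETC.v2_ne_top hp hζ h2)
        (Pool.Agent.Helper24.ETC.lf_nosplit hP hp hζ (hUP p F _ K hP) htop h2)
  · rintro rfl P hPo
    exact Pool.Agent.Helper24.ETC.single_ord T (fun a b => (hG a b).1) (fun a b => (hG a b).2)
      hO.onto hPo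

end Pool.Agent.ETC
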