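import Mathlib
import Pool.Agent.Helper58.ET.Blk

set_option autoImplicit false

/-! A field `L` over `F` in which orthogonal products are trivial contains the `p`-th roots of the
elements of one of the components `T i` of `F`. -/

namespace Pool.Agent.Helper24.ETC

open Pool.Agent.Helper58.ET (St Lt)
open scoped TensorProduct

section

variable {F : Type} [Field F] {A : Type} [CommGroup A] {φ : Fˣ →* A} {I : Type}
  {T : I → Subgroup Fˣ}

/-- the elements of all `T j` with `j ≠ i` -/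
def Pi' (T : I → Subgroup Fˣ) (i : I) : Subgroup Fˣ := ⨅ j, ⨅ _ : j ≠ i, T j

lemma mem_Pi' {i : I} {x : Fˣ} : x ∈ Pi' T i ↔ ∀ j, j ≠ i → x ∈ T j := by
  unfold Pi'
  simp [Subgroup.mem_iInf]

lemma lt_left {L : Subgroup A} {a b : A} (h : a ∈ L) :
    Additive.ofMul a ⊗ₜ[ℤ] Additive.ofMul b ∈ Lt L :=
  AddSubgroup.subset_closure ⟨a, h, b, Or.inl rfl⟩

lemma lt_right {L : Subgroup A} {a b : A} (h : b ∈ L) :
    Additive.ofMul a ⊗ₜ[ℤ] Additive.ofMul b ∈ Lt L :=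
  AddSubgroup.subset_closure ⟨b, h, a, Or.inr rfl⟩

/-- elements of `Pi' T i` and of `T i` are orthogonal -/
lemma orth (hsum : ∀ x, (∀ i, x ∈ St φ ⊔ Lt ((T i).map φ)) → x ∈ St φ) {i : I} {a t : Fˣ}
    (ha : a ∈ Pi' T i) (ht : t ∈ T i) :
    Additive.ofMul (φ a) ⊗ₜ[ℤ] Additive.ofMul (φ t) ∈ St φ := by
  classical
  refine hsum _ fun j => AddSubgroup.mem_sup_right ?_
  by_cases hj : j = i
  · subst hj
    exact lt_right ⟨t, ht, rfl⟩
  · exact lt_left ⟨a, mem_Pi'.1 ha j hj, rfl⟩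

/-- the components of a relation `f + g = 1` are orthogonal -/
lemma orth_pr (hsum : ∀ x, (∀ i, x ∈ St φ ⊔ Lt ((T i).map φ)) → x ∈ St φ) {i : I}
    {f g a b a' b' : Fˣ} (hfg : (f : F) + g = 1)
    (ha : a ∈ Pi' T i) (hb : b ∈ T i) (ha' : a' ∈ Pi' T i) (hb' : b' ∈ T i)
    (h1 : f = a * b) (h2 : g = a' * b') :
    Additive.ofMul (φ a) ⊗ₜ[ℤ] Additive.ofMul (φ a') ∈ St φ ∧
      Additive.ofMul (φ b) ⊗ₜ[ℤ] Additive.ofMul (φ b') ∈ St φ := by
  classical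
  have h0 : Additive.ofMul (φ f) ⊗ₜ[ℤ] Additive.ofMul (φ g) ∈ St φ :=
    AddSubgroup.subset_closure ⟨f, g, hfg, rfl⟩
  have e : Additive.ofMul (φ f) ⊗ₜ[ℤ] Additive.ofMul (φ g) =
      Additive.ofMul (φ a) ⊗ₜ[ℤ] Additive.ofMul (φ a') +
      Additive.ofMul (φ a) ⊗ₜ[ℤ] Additive.ofMul (φ b') +
      (Additive.ofMul (φ b) ⊗ₜ[ℤ] Additive.ofMul (φ a') +
      Additive.ofMul (φ b) ⊗ₜ[ℤ] Additive.ofMul (φ b')) := by
    rw [h1, h2, map_mul φ, map_mul φ, ofMul_mul, ofMul_mul, TensorProduct.add_tmul,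
      TensorProduct.tmul_add, TensorProduct.tmul_add]
  constructor
  · refine hsum _ fun j => ?_
    by_cases hj : j = i
    · subst hj
      have e2 : Additive.ofMul (φ a) ⊗ₜ[ℤ] Additive.ofMul (φ a') =
          Additive.ofMul (φ f) ⊗ₜ[ℤ] Additive.ofMul (φ g) +
          (-(Additive.ofMul (φ a) ⊗ₜ[ℤ] Additive.ofMul (φ b')) -
          (Additive.ofMul (φ b) ⊗ₜ[ℤ] Additive.ofMul (φ a') +
          Additive.ofMul (φ b) ⊗ₜ[ℤ] Additive.ofMul (φ b'))) := by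
        rw [e]; abel
      rw [e2]
      refine add_mem (AddSubgroup.mem_sup_left h0) (AddSubgroup.mem_sup_right ?_)
      refine sub_mem (neg_mem (lt_right ⟨b', hb', rfl⟩)) (add_mem (lt_left ⟨b, hb, rfl⟩)
        (lt_left ⟨b, hb, rfl⟩))
    · exact AddSubgroup.mem_sup_right (lt_left ⟨a, mem_Pi'.1 ha j hj, rfl⟩)
  · refine hsum _ fun j => ?_
    by_cases hj : j = i
    · subst hj
      exact AddSubgroup.mem_sup_right (lt_left ⟨b, hb, rfl⟩)
    · have e2 : Additive.ofMul (φ b) ⊗ₜ[ℤ] Additive.ofMul (φ b') =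
          Additive.ofMul (φ f) ⊗ₜ[ℤ] Additive.ofMul (φ g) +
          (-(Additive.ofMul (φ b) ⊗ₜ[ℤ] Additive.ofMul (φ a')) -
          (Additive.ofMul (φ a) ⊗ₜ[ℤ] Additive.ofMul (φ a') +
          Additive.ofMul (φ a) ⊗ₜ[ℤ] Additive.ofMul (φ b'))) := by
        rw [e]; abel
      rw [e2]
      refine add_mem (AddSubgroup.mem_sup_left h0) (AddSubgroup.mem_sup_right ?_)
      exact sub_mem (neg_mem (lt_right ⟨a', mem_Pi'.1 ha' j hj, rfl⟩))
        (add_mem (lt_left ⟨a, mem_Pi'.1 ha j hj, rfl⟩) (lt_left ⟨a, mem_Pi'.1 ha j hj, rfl⟩))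

/-- every element is a product of an element of `Pi' T i` and an element of `T i` -/
lemma split (honto : ∀ u : I → Fˣ, ∃ y : Fˣ, ∀ i, y / u i ∈ T i) (i : I) (f : Fˣ) :
    ∃ a ∈ Pi' T i, ∃ b ∈ T i, f = a * b := by
  classical
  obtain ⟨y, hy⟩ := honto (Function.update (fun _ => 1) i f)
  refine ⟨y, mem_Pi'.2 fun j hj => ?_, f / y, ?_, by rw [mul_div_cancel]⟩
  · have := hy j
    rwa [Function.update_of_ne hj, div_one] at this
  · have := inv_mem (hy i)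
    rwa [Function.update_self, inv_div] at this

variable {L : Type} [Field L] [Algebra F L]

/-- the units of `F` in `L` -/
noncomputable abbrev io (F L : Type) [Field F] [Field L] [Algebra F L] : Fˣ →* Lˣ :=
  Units.map (algebraMap F L : F →* L)

/-- orthogonal products in `L` with orthogonal components of `u + v = 1` are trivial -/
def NoSplit (p : ℕ) (NL : Lˣ → Lˣ → Prop) : Prop :=
  ∀ X Y : Subgroup Lˣ, (∀ c : Lˣ, c ^ p ∈ X) → (∀ c : Lˣ, c ^ p ∈ Y) → X ⊔ Y = ⊤ →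
    (∀ x ∈ X, ∀ y ∈ Y, NL x y) →
    (∀ u v : Lˣ, (u : L) + v = 1 → ∀ x ∈ X, ∀ y ∈ Y, ∀ x' ∈ X, ∀ y' ∈ Y, u = x * y →
      v = x' * y' → NL x x' ∧ NL y y') →
    (∀ x ∈ X, ∃ c : Lˣ, x = c ^ p) ∨ ∀ y ∈ Y, ∃ c : Lˣ, y = c ^ p

/-- **SINGLE**, abstract form. -/
theorem single_abs [Finite I] {p : ℕ}
    (honto : ∀ u : I → Fˣ, ∃ y : Fˣ, ∀ i, y / u i ∈ T i)
    {NL : Lˣ → Lˣ → Prop}
    (n1 : ∀ x y, NL x y → NL y x)
    (n2 : ∀ x y z, NL x y → NL x z → NL x (y * z))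
    (n3 : ∀ x c, NL x (c ^ p))
    (hO : ∀ i, ∀ a ∈ Pi' T i, ∀ t ∈ T i, NL (io F L a) (io F L t))
    (hP : ∀ i, ∀ f g : Fˣ, (f : F) + g = 1 → ∀ a ∈ Pi' T i, ∀ b ∈ T i, ∀ a' ∈ Pi' T i,
      ∀ b' ∈ T i, f = a * b → g = a' * b' →
      NL (io F L a) (io F L a') ∧ NL (io F L b) (io F L b'))
    (hE : IsEmpty I → ∀ a b : Fˣ, NL (io F L a) (io F L b))
    (hs : ∀ x : Lˣ, ∃ (f : Fˣ) (l : Lˣ), x = io F L f * l ^ p)
    (ha : ∀ u v : Lˣ, (u : L) + v = 1 → ∃ f g : Fˣ, (f : F) + g = 1 ∧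
      (∃ l : Lˣ, u = io F L f * l ^ p) ∧ ∃ l : Lˣ, v = io F L g * l ^ p)
    (hloc : NoSplit p NL) (hne : ∃ x : Lˣ, ∀ c : Lˣ, x ≠ c ^ p) :
    ∃ i, ∀ t ∈ T i, ∃ c : Lˣ, io F L t = c ^ p := by
  classical
  have n2' : ∀ x y z, NL x z → NL y z → NL (x * y) z := fun x y z h1 h2 =>
    n1 _ _ (n2 _ _ _ (n1 _ _ h1) (n1 _ _ h2))
  have n3' : ∀ x c, NL (c ^ p) x := fun x c => n1 _ _ (n3 x c)
  -- the subgroup generated by `H` and the `p`-th powers
  let E : Subgroup Fˣ → Subgroup Lˣ := fun H => H.map (io F L) ⊔ (powMonoidHom p : Lˣ →* Lˣ).range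
  have memE : ∀ (H : Subgroup Fˣ) (x : Lˣ), x ∈ E H ↔ ∃ f ∈ H, ∃ l : Lˣ, x = io F L f * l ^ p := by
    intro H x
    simp only [E]
    rw [Subgroup.mem_sup]
    constructor
    · rintro ⟨_, ⟨f, hf, rfl⟩, _, ⟨l, rfl⟩, rfl⟩
      exact ⟨f, hf, l, rfl⟩
    · rintro ⟨f, hf, l, rfl⟩
      exact ⟨_, ⟨f, hf, rfl⟩, _, ⟨l, rfl⟩, rfl⟩
  have hEp : ∀ (H : Subgroup Fˣ) (c : Lˣ), c ^ p ∈ E H := fun H c =>
    (memE H _).2 ⟨1, one_mem _, c, by rw [map_one, one_mul]⟩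
  have hEi : ∀ (H : Subgroup Fˣ) (f : Fˣ), f ∈ H → io F L f ∈ E H := fun H f hf =>
    (memE H _).2 ⟨f, hf, 1, by rw [one_pow, mul_one]⟩
  by_contra hcon
  push Not at hcon
  obtain ⟨x₀, hx₀⟩ := hne
  -- every component is trivial
  have key : ∀ i, ∀ f ∈ Pi' T i, ∃ c : Lˣ, io F L f = c ^ p := by
    intro i f hf
    have horth : ∀ x ∈ E (Pi' T i), ∀ y ∈ E (T i), NL x y := by
      intro x hx y hy
      obtain ⟨a, ha1, l, rfl⟩ := (memE _ _).1 hx
      obtain ⟨t, ht, m, rfl⟩ := (memE _ _).1 hy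
      exact n2' _ _ _ (n2 _ _ _ (hO i _ ha1 _ ht) (n3 _ _)) (n3' _ _)
    have hsup : E (Pi' T i) ⊔ E (T i) = ⊤ := by
      rw [eq_top_iff]
      rintro x -
      obtain ⟨f, l, rfl⟩ := hs x
      obtain ⟨a, ha1, b, hb, rfl⟩ := split honto i f
      rw [map_mul, mul_assoc]
      refine mul_mem (Subgroup.mem_sup_left (hEi _ _ ha1)) (Subgroup.mem_sup_right ?_)
      exact mul_mem (hEi _ _ hb) (hEp _ _)
    have hrad : ∀ s, s ∈ E (Pi' T i) → s ∈ E (T i) → ∀ z, NL s z := by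
      intro s h1 h2 z
      have hz : z ∈ E (Pi' T i) ⊔ E (T i) := by rw [hsup]; exact Subgroup.mem_top z
      obtain ⟨z1, hz1, z2, hz2, rfl⟩ := Subgroup.mem_sup.1 hz
      exact n2 _ _ _ (n1 _ _ (horth _ hz1 _ h2)) (horth _ h1 _ hz2)
    have hpr : ∀ u v : Lˣ, (u : L) + v = 1 → ∀ x ∈ E (Pi' T i), ∀ y ∈ E (T i),
        ∀ x' ∈ E (Pi' T i), ∀ y' ∈ E (T i), u = x * y → v = x' * y' → NL x x' ∧ NL y y' := by
      intro u v huv x hx y hy x' hx' y' hy' hu hv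
      obtain ⟨f, g, hfg, ⟨l, hl⟩, ⟨m, hm⟩⟩ := ha u v huv
      obtain ⟨a, ha1, b, hb, hab⟩ := split honto i f
      obtain ⟨a', ha1', b', hb', hab'⟩ := split honto i g
      obtain ⟨h3, h4⟩ := hP i f g hfg a ha1 b hb a' ha1' b' hb' hab hab'
      -- the quotients of the components are in the radical
      have q : ∀ {u x y : Lˣ} {f a b : Fˣ} {l : Lˣ}, x ∈ E (Pi' T i) → y ∈ E (T i) →
          a ∈ Pi' T i → b ∈ T i → f = a * b → u = x * y → u = io F L f * l ^ p →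
          (∀ z, NL (x / io F L a) z) ∧ ∀ z, NL (y / io F L b) z := by
        intro u x y f a b l hx hy ha hb hab hu hl
        have e : x / io F L a = io F L b * l ^ p / y := by
          rw [div_eq_div_iff_mul_eq_mul, ← hu, hl, hab, map_mul (io F L)]
          ac_rfl
        have e' : y / io F L b = io F L a * l ^ p / x := by
          rw [div_eq_div_iff_mul_eq_mul, mul_comm y x, ← hu, hl, hab, map_mul (io F L)]
          ac_rfl
        constructor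
        · refine hrad _ (div_mem hx (hEi _ _ ha)) ?_
          rw [e]
          exact div_mem (mul_mem (hEi _ _ hb) (hEp _ _)) hy
        · refine hrad _ ?_ (div_mem hy (hEi _ _ hb))
          rw [e']
          exact div_mem (mul_mem (hEi _ _ ha) (hEp _ _)) hx
      obtain ⟨q1, q2⟩ := q hx hy ha1 hb hab hu hl
      obtain ⟨q3, q4⟩ := q hx' hy' ha1' hb' hab' hv hm
      have fin : ∀ {x x' : Lˣ} {a a' : Fˣ}, (∀ z, NL (x / io F L a) z) →
          (∀ z, NL (x' / io F L a') z) → NL (io F L a) (io F L a') → NL x x' := by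
        intro x x' a a' h1 h2 h3
        have e1 : x = io F L a * (x / io F L a) := by rw [mul_div_cancel]
        have e2 : x' = io F L a' * (x' / io F L a') := by rw [mul_div_cancel]
        rw [e1]
        refine n2' _ _ _ ?_ (h1 _)
        rw [e2]
        exact n2 _ _ _ h3 (n1 _ _ (h2 _))
      exact ⟨fin q1 q3 h3, fin q2 q4 h4⟩
    rcases hloc (E (Pi' T i)) (E (T i)) (hEp _) (hEp _) hsup horth hpr with h | h
    · exact h _ (hEi _ _ hf)
    · obtain ⟨t, ht, htc⟩ := hcon i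
      obtain ⟨c, hc⟩ := h _ (hEi _ _ ht)
      exact absurd hc (htc c)
  have all : ∀ f : Fˣ, ∃ c : Lˣ, io F L f = c ^ p := by
    intro f
    rcases isEmpty_or_nonempty I with hI | hI
    · have hall : ∀ x y : Lˣ, NL x y := by
        intro x y
        obtain ⟨a, l, rfl⟩ := hs x
        obtain ⟨b, m, rfl⟩ := hs y
        exact n2' _ _ _ (n2 _ _ _ (hE hI _ _) (n3 _ _)) (n3' _ _)
      rcases hloc ⊤ ⊤ (fun _ => Subgroup.mem_top _) (fun _ => Subgroup.mem_top _) (by simp)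
        (fun x _ y _ => hall x y) (fun u v _ x _ y _ x' _ y' _ _ _ => ⟨hall _ _, hall _ _⟩) with
        h | h
      · exact h _ (Subgroup.mem_top _)
      · exact h _ (Subgroup.mem_top _)
    · have _ := Fintype.ofFinite I
      choose a ha b hb hab using fun i => split honto i f
      -- `f` is the product of the `a i` and an element of all `T i`
      have hr : ∀ i, f / ∏ j, a j ∈ T i := by
        intro i
        have h1 : ∏ j, a j = a i * ∏ j ∈ Finset.univ.erase i, a j :=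
          (Finset.mul_prod_erase _ _ (Finset.mem_univ i)).symm
        have h2 : ∏ j ∈ Finset.univ.erase i, a j ∈ T i :=
          prod_mem fun j hj => mem_Pi'.1 (ha j) i (Finset.ne_of_mem_erase hj).symm
        rw [h1, ← div_div]
        refine div_mem ?_ h2
        rw [hab i, mul_div_cancel_left]
        exact hb i
      have hprod : ∃ c : Lˣ, io F L (∏ j, a j) = c ^ p := by
        choose c hc using fun j => key j (a j) (ha j)
        refine ⟨∏ j, c j, ?_⟩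
        rw [map_prod, ← Finset.prod_pow]
        exact Finset.prod_congr rfl fun j _ => hc j
      obtain ⟨c, hc⟩ := hprod
      obtain ⟨i⟩ := hI
      obtain ⟨d, hd⟩ := key i (f / ∏ j, a j) (mem_Pi'.2 fun j _ => hr j)
      refine ⟨d * c, ?_⟩
      rw [mul_pow, ← hd, ← hc, ← map_mul, div_mul_cancel]
  obtain ⟨f, l, hf⟩ := hs x₀
  obtain ⟨c, hc⟩ := all f
  exact hx₀ (c * l) (by rw [hf, hc, mul_pow])

/-- **SINGLE**, from the orthogonality in `K₂`. -/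
theorem single_K2 [Finite I] {p : ℕ}
    (honto : ∀ u : I → Fˣ, ∃ y : Fˣ, ∀ i, y / u i ∈ T i)
    (hsum : ∀ x, (∀ i, x ∈ St φ ⊔ Lt ((T i).map φ)) → x ∈ St φ)
    {NL : Lˣ → Lˣ → Prop}
    (n1 : ∀ x y, NL x y → NL y x)
    (n2 : ∀ x y z, NL x y → NL x z → NL x (y * z))
    (n3 : ∀ x c, NL x (c ^ p))
    (n4 : ∀ a b : Fˣ, Additive.ofMul (φ a) ⊗ₜ[ℤ] Additive.ofMul (φ b) ∈ St φ →
      NL (io F L a) (io F L b))
    (hs : ∀ x : Lˣ, ∃ (f : Fˣ) (l : Lˣ), x = io F L f * l ^ p)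
    (ha : ∀ u v : Lˣ, (u : L) + v = 1 → ∃ f g : Fˣ, (f : F) + g = 1 ∧
      (∃ l : Lˣ, u = io F L f * l ^ p) ∧ ∃ l : Lˣ, v = io F L g * l ^ p)
    (hloc : NoSplit p NL) (hne : ∃ x : Lˣ, ∀ c : Lˣ, x ≠ c ^ p) :
    ∃ i, ∀ t ∈ T i, ∃ c : Lˣ, io F L t = c ^ p :=
  single_abs honto n1 n2 n3 (fun _ _ ha _ ht => n4 _ _ (orth hsum ha ht))
    (fun _ _ _ hfg _ ha _ hb _ ha' _ hb' h1 h2 =>
      ⟨n4 _ _ (orth_pr hsum hfg ha hb ha' hb' h1 h2).1,
        n4 _ _ (orth_pr hsum hfg ha hb ha' hb' h1 h2).2⟩)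
    (fun hI a b => n4 _ _ (hsum _ fun i => hI.elim i)) hs ha hloc hne

end

end Pool.Agent.Helper24.ETC
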