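import Pool.Agent.Helper24.ETC.Ord
import Pool.Agent.Helper24.ETC.Single

set_option autoImplicit false

/-! Symbols and field extensions; **SINGLE** from a statement over an extension. -/

namespace Pool.Agent.Helper24.ETC

open scoped TensorProduct
open Pool.Agent.ETC
open Pool.Agent.Helper58.ET (St Ns)
open Pool.Agent.Helper39.ET2 (Nd Split Indec)

section

variable {F L : Type} [Field F] [Field L] [Algebra F L] {p : ℕ}

/-- symbols and field extensions -/
lemma sy_map {a b : Fˣ} (h : Sy (pw F p) a b) : Sy (pw L p) (io F L a) (io F L b) := by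
  have hT : pw F p ≤ (pw L p).comap (io F L) := by
    rintro _ ⟨c, rfl⟩
    exact ⟨io F L c, by rw [powMonoidHom_apply, powMonoidHom_apply, map_pow]⟩
  obtain ⟨π, hπ⟩ : ∃ π : Cl (pw F p) →* Cl (pw L p), ∀ u : Fˣ, π (cl _ u) = cl _ (io F L u) :=
    ⟨QuotientGroup.map _ _ (io F L) hT, fun u => rfl⟩
  obtain ⟨P, hP⟩ : ∃ P : Additive (Cl (pw F p)) ⊗[ℤ] Additive (Cl (pw F p)) →ₗ[ℤ]
      Additive (Cl (pw L p)) ⊗[ℤ] Additive (Cl (pw L p)),
      ∀ a b : Cl (pw F p), P (Additive.ofMul a ⊗ₜ[ℤ] Additive.ofMul b) =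
        Additive.ofMul (π a) ⊗ₜ[ℤ] Additive.ofMul (π b) :=
    ⟨TensorProduct.map (MonoidHom.toAdditive π).toIntLinearMap
      (MonoidHom.toAdditive π).toIntLinearMap, fun a b => rfl⟩
  have hPS : ∀ z ∈ St (cl (pw F p)), P z ∈ St (cl (pw L p)) := by
    intro z hz
    unfold St at hz
    induction hz using AddSubgroup.closure_induction with
    | mem z hz =>
      obtain ⟨u, v, huv, rfl⟩ := hz
      rw [hP, hπ, hπ]
      apply st_sum
      rw [Units.coe_map, Units.coe_map, MonoidHom.coe_coe, ← map_add, huv, map_one]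
    | zero => rw [map_zero]; exact zero_mem _
    | add a b _ _ ha hb => rw [map_add]; exact add_mem ha hb
    | neg a _ ha => rw [map_neg]; exact neg_mem ha
  have h1 := hPS _ h
  rwa [hP, hπ, hπ] at h1

variable {I : Type} {T : I → Subgroup Fˣ}

/-- the `K₂`-form of an orthogonal family -/
structure Glue (p : ℕ) (T : I → Subgroup Fˣ) : Prop where
  pow : ∀ i, ∀ c : Fˣ, c ^ p ∈ T i
  onto : ∀ u : I → Fˣ, ∃ y : Fˣ, ∀ i, y / u i ∈ T i
  glue : ∀ a b : Fˣ, (∀ i, Sy (T i) a b) → Sy (pw F p) a b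

lemma Glue.pw_le (h : Glue p T) (i : I) : pw F p ≤ T i := by
  rintro _ ⟨c, rfl⟩
  exact h.pow i c

lemma Glue.sy (h : Glue p T) {a b : Fˣ} (hab : Sy (pw F p) a b) (i : I) : Sy (T i) a b :=
  sy_mono (h.pw_le i) hab

lemma Glue.orth (h : Glue p T) {i : I} {a t : Fˣ} (ha : a ∈ Pi' T i) (ht : t ∈ T i) :
    Sy (pw F p) a t := by
  classical
  apply h.glue
  intro j
  by_cases hj : j = i
  · subst hj
    exact sy_mem ht
  · exact sy_mem' (mem_Pi'.1 ha j hj)

lemma Glue.orth_pr (h : Glue p T) {i : I} {f g a b a' b' : Fˣ} (hfg : (f : F) + g = 1)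
    (ha : a ∈ Pi' T i) (hb : b ∈ T i) (ha' : a' ∈ Pi' T i) (hb' : b' ∈ T i)
    (h1 : f = a * b) (h2 : g = a' * b') : Sy (pw F p) a a' ∧ Sy (pw F p) b b' := by
  classical
  have h0 : ∀ j, Sy (T j) f g := fun j => sy_sum hfg
  constructor
  · apply h.glue
    intro j
    by_cases hj : j = i
    · subst hj
      refine sy_congr ?_ ?_ (h0 j)
      · rwa [h1, mul_div_cancel_left]
      · rwa [h2, mul_div_cancel_left]
    · exact sy_mem' (mem_Pi'.1 ha j hj)
  · apply h.glue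
    intro j
    by_cases hj : j = i
    · subst hj
      exact sy_mem hb'
    · refine sy_congr ?_ ?_ (h0 j)
      · rw [h1, mul_div_cancel_right]
        exact mem_Pi'.1 ha j hj
      · rw [h2, mul_div_cancel_right]
        exact mem_Pi'.1 ha' j hj

/-- **SINGLE** from the absence of orthogonal products over an extension `L` -/
theorem single_ext [Finite I] (h : Glue p T)
    (hs : ∀ x : Lˣ, ∃ (f : Fˣ) (l : Lˣ), x = io F L f * l ^ p)
    (ha : ∀ u v : Lˣ, (u : L) + v = 1 → ∃ f g : Fˣ, (f : F) + g = 1 ∧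
      (∃ l : Lˣ, u = io F L f * l ^ p) ∧ ∃ l : Lˣ, v = io F L g * l ^ p)
    (hloc : NoSplit p (Sy (pw L p))) (hne : ∃ x : Lˣ, ∀ c : Lˣ, x ≠ c ^ p) :
    ∃ i, ∀ t ∈ T i, ∃ c : Lˣ, io F L t = c ^ p := by
  have n1 : ∀ x y : Lˣ, Sy (pw L p) x y → Sy (pw L p) y x := fun x y h => sy_symm h
  have n2 : ∀ x y z : Lˣ, Sy (pw L p) x y → Sy (pw L p) x z → Sy (pw L p) x (y * z) :=
    fun x y z h1 h2 => sy_mul h1 h2
  have n3 : ∀ x c : Lˣ, Sy (pw L p) x (c ^ p) := by
    intro x c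
    apply sy_mem
    rw [mem_pw]
    exact ⟨c, rfl⟩
  have hO : ∀ i, ∀ a ∈ Pi' T i, ∀ t ∈ T i, Sy (pw L p) (io F L a) (io F L t) := by
    intro i a ha t ht
    exact sy_map (h.orth ha ht)
  have hP : ∀ i, ∀ f g : Fˣ, (f : F) + g = 1 → ∀ a ∈ Pi' T i, ∀ b ∈ T i, ∀ a' ∈ Pi' T i,
      ∀ b' ∈ T i, f = a * b → g = a' * b' →
      Sy (pw L p) (io F L a) (io F L a') ∧ Sy (pw L p) (io F L b) (io F L b') := by
    intro i f g hfg a ha b hb a' ha' b' hb' h1 h2
    obtain ⟨h3, h4⟩ := h.orth_pr hfg ha hb ha' hb' h1 h2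
    exact ⟨sy_map h3, sy_map h4⟩
  have hE : IsEmpty I → ∀ a b : Fˣ, Sy (pw L p) (io F L a) (io F L b) := by
    intro hI a b
    exact sy_map (h.glue a b fun i => hI.elim i)
  exact single_abs h.onto n1 n2 n3 hO hP hE hs ha hloc hne

end

end Pool.Agent.Helper24.ETC
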