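import Mathlib

set_option autoImplicit false

/-! Extensions of valuation rings. -/

namespace Pool.Agent.Helper24.ETC

/-- valuation rings extend -/
theorem exists_over {F : Type} [Field F] (R : ValuationSubring F) (K : Type) [Field K]
    [Algebra F K] : ∃ W : ValuationSubring K, W.comap (algebraMap F K) = R := by
  obtain ⟨W, h, hloc⟩ := IsLocalRing.exists_factor_valuationRing
    ((algebraMap F K).comp R.subtype : R →+* K)
  refine ⟨W, ?_⟩
  ext x
  rw [ValuationSubring.mem_comap]
  constructor
  · intro hx
    rcases R.mem_or_inv_mem x with h1 | h1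
    · exact h1
    · by_cases hx0 : x = 0
      · rw [hx0]
        exact R.zero_mem
      -- the image of `x⁻¹` is a unit
      have hu : IsUnit ((((algebraMap F K).comp R.subtype : R →+* K).codRestrict W.toSubring h)
          ⟨x⁻¹, h1⟩) := by
        refine IsUnit.of_mul_eq_one ⟨algebraMap F K x, hx⟩ ?_
        ext
        change algebraMap F K x⁻¹ * algebraMap F K x = 1
        rw [← map_mul, inv_mul_cancel₀ hx0, map_one]
      have h2 : IsUnit (⟨x⁻¹, h1⟩ : R) := hloc.map_nonunit _ hu
      obtain ⟨y, hy⟩ := h2.exists_right_inv
      have h3 : x⁻¹ * (y : F) = 1 := congrArg Subtype.val hy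
      have h4 : x = y := by
        field_simp at h3
        exact h3.symm
      rw [h4]
      exact y.2
  · intro hx
    exact h ⟨x, hx⟩

end Pool.Agent.Helper24.ETC
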