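import Pool.Agent.Helper24.ETC.Glue
import Pool.Agent.Helper24.ETC.Over
import Pool.Agent.Helper66.ETC.Up

set_option autoImplicit false

/-! The decomposition field of a place. -/

namespace Pool.Agent.Helper24.ETC

open Pool.Agent.ETC

section

variable {F K : Type} [Field F] [Field K] [Algebra F K] {p : ℕ}

/-- the decomposition field -/
noncomputable abbrev Lf (F : Type) [Field F] {K : Type} [Field K] [Algebra F K]
    (W : ValuationSubring K) : IntermediateField F K :=
  IntermediateField.fixedField (Dec F W)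

lemma mem_Lf {W : ValuationSubring K} {x : K} : x ∈ Lf F W ↔ InL F W x := by
  rw [IntermediateField.mem_fixedField_iff]
  exact Iff.rfl

variable {ζ : F} {W : ValuationSubring K}

/-- every element of the decomposition field is an element of `F*` times a `p`-th power -/
lemma lf_surj (h : PCl p F K) (hp : p.Prime) (hζ : IsPrimitiveRoot ζ p)
    (htop : Top ζ (W.comap (algebraMap F K))) (x : (Lf F W)ˣ) :
    ∃ (f : Fˣ) (l : (Lf F W)ˣ), x = io F (Lf F W) f * l ^ p := by
  have hx0 : ((x : Lf F W) : K) ≠ 0 := fun e => x.ne_zero (Subtype.ext e)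
  obtain ⟨t, l, hl, hl0, hxt⟩ := v4 h hp hζ htop hx0 (mem_Lf.1 (x : Lf F W).2)
  refine ⟨t, Units.mk0 ⟨l, mem_Lf.2 hl⟩ fun e => hl0 (congrArg Subtype.val e), ?_⟩
  ext
  rw [hxt]
  rfl

/-- precise approximation by elements of `F` -/
lemma lf_near (h : PCl p F K) (hp : p.Prime) (hζ : IsPrimitiveRoot ζ p)
    (htop : Top ζ (W.comap (algebraMap F K))) {x : Lf F W} (hx : x ≠ 0) :
    ∃ (f : Fˣ) (m : Lf F W), W.valuation (m : K) < W.valuation (algebraMap F K (1 - ζ)) ^ p ∧
      x = algebraMap F (Lf F W) f * (1 + m) := by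
  have hx0 : (x : K) ≠ 0 := fun e => hx (Subtype.ext e)
  obtain ⟨f, m, hm, hlt, hxt⟩ := v1 h hp hζ.pow_eq_one (hζ.ne_one hp.one_lt) htop hx0
    (mem_Lf.1 x.2)
  exact ⟨f, ⟨m, mem_Lf.2 hm⟩, hlt, Subtype.ext hxt⟩

/-- one-units of high level are `p`-th powers -/
lemma lf_pow (h : PCl p F K) (hp : p.Prime) (hζ : IsPrimitiveRoot ζ p) {m : Lf F W}
    (hlt : W.valuation (m : K) < W.valuation (algebraMap F K (1 - ζ)) ^ p) :
    ∃ l : Lf F W, l ^ p = 1 + m := by
  obtain ⟨l, hl, hlp, -, -⟩ := v2 h hp hζ (mem_Lf.1 m.2) hlt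
  exact ⟨⟨l, mem_Lf.2 hl⟩, Subtype.ext hlp⟩

lemma lam_pow_le (hp : p.Prime) (hζ : IsPrimitiveRoot ζ p) (W : ValuationSubring K) :
    W.valuation (algebraMap F K (1 - ζ)) ^ p ≤ 1 := by
  rw [map_sub, map_one]
  apply pow_le_one'
  apply lam_le hp.ne_zero
  rw [← map_pow, hζ.pow_eq_one, map_one]

/-- relations `u + v = 1` come from `F` -/
lemma lf_approx (h : PCl p F K) (hp : p.Prime) (hζ : IsPrimitiveRoot ζ p)
    (htop : Top ζ (W.comap (algebraMap F K))) (u v : (Lf F W)ˣ) (huv : (u : Lf F W) + v = 1) :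
    ∃ f g : Fˣ, (f : F) + g = 1 ∧ (∃ l : (Lf F W)ˣ, u = io F (Lf F W) f * l ^ p) ∧
      ∃ l : (Lf F W)ˣ, v = io F (Lf F W) g * l ^ p := by
  -- the case `|v| ≤ |u|`
  have key : ∀ u v : (Lf F W)ˣ, (u : Lf F W) + v = 1 →
      W.valuation (((v : Lf F W) : K)) ≤ W.valuation ((u : Lf F W) : K) →
      ∃ f g : Fˣ, (f : F) + g = 1 ∧ (∃ l : (Lf F W)ˣ, u = io F (Lf F W) f * l ^ p) ∧
        ∃ l : (Lf F W)ˣ, v = io F (Lf F W) g * l ^ p := by
    intro u v huv hle
    have hu0 : ((u : Lf F W) : K) ≠ 0 := fun e => u.ne_zero (Subtype.ext e)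
    have huvK : ((u : Lf F W) : K) + ((v : Lf F W) : K) = 1 := by
      have := congrArg (Subtype.val : Lf F W → K) huv
      exact this
    obtain ⟨g, m, hm, hv⟩ := lf_near h hp hζ htop v.ne_zero
    have hm1 : W.valuation (m : K) < 1 := lt_of_lt_of_le hm (lam_pow_le hp hζ W)
    have hvK : ((v : Lf F W) : K) = algebraMap F K g * (1 + (m : K)) :=
      congrArg (Subtype.val : Lf F W → K) hv
    have h1m : W.valuation (1 + (m : K)) = 1 := W.valuation.map_one_add_of_lt hm1
    have hgv : W.valuation (algebraMap F K g) = W.valuation ((v : Lf F W) : K) := by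
      rw [hvK, map_mul, h1m, mul_one]
    -- `1 - g`
    have e1 : algebraMap F K (1 - (g : F)) = ((u : Lf F W) : K) + algebraMap F K g * (m : K) := by
      rw [map_sub, map_one]
      linear_combination (-1) * huvK + hvK
    have hsmall : W.valuation (algebraMap F K g * (m : K)) < W.valuation ((u : Lf F W) : K) := by
      rw [map_mul, hgv]
      have hupos : 0 < W.valuation ((u : Lf F W) : K) :=
        zero_lt_iff.2 ((Valuation.ne_zero_iff _).2 hu0)
      calc W.valuation ((v : Lf F W) : K) * W.valuation (m : K)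
          ≤ W.valuation ((u : Lf F W) : K) * W.valuation (m : K) := by gcongr
        _ < W.valuation ((u : Lf F W) : K) * 1 := by gcongr
        _ = _ := mul_one _
    have h1g : W.valuation (algebraMap F K (1 - (g : F))) = W.valuation ((u : Lf F W) : K) := by
      rw [e1]
      exact Valuation.map_add_eq_of_lt_left _ hsmall
    have h1g0 : (1 : F) - g ≠ 0 := by
      intro e
      rw [e, map_zero, map_zero] at h1g
      exact hu0 ((Valuation.zero_iff _).1 h1g.symm)
    have h1gK0 : algebraMap F K (1 - (g : F)) ≠ 0 := (map_ne_zero (algebraMap F K)).2 h1g0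
    refine ⟨Units.mk0 _ h1g0, g, by rw [Units.val_mk0]; ring, ?_, ?_⟩
    · obtain ⟨l, hl⟩ := lf_pow (m := -(algebraMap F (Lf F W) g * m) /
          algebraMap F (Lf F W) (1 - (g : F))) h hp hζ (by
        change W.valuation (-(algebraMap F K g * (m : K)) / algebraMap F K (1 - (g : F))) < _
        rw [map_div₀, Valuation.map_neg, h1g, map_mul, hgv]
        have hupos : 0 < W.valuation ((u : Lf F W) : K) :=
          zero_lt_iff.2 ((Valuation.ne_zero_iff _).2 hu0)
        rw [div_lt_iff₀ hupos, mul_comm]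
        calc W.valuation (m : K) * W.valuation ((v : Lf F W) : K)
            ≤ W.valuation (m : K) * W.valuation ((u : Lf F W) : K) := by gcongr
          _ < _ := by gcongr)
      have h1gL0 : algebraMap F (Lf F W) (1 - (g : F)) ≠ 0 :=
        (map_ne_zero (algebraMap F (Lf F W))).2 h1g0
      have e2 : (u : Lf F W) = algebraMap F (Lf F W) (1 - (g : F)) * l ^ p := by
        rw [hl, mul_add, mul_one, mul_div_cancel₀ _ h1gL0]
        have e3 : algebraMap F (Lf F W) (1 - (g : F)) =
            (u : Lf F W) + algebraMap F (Lf F W) g * m := Subtype.ext e1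
        rw [e3]
        ring
      have hl0 : l ≠ 0 := by
        rintro rfl
        rw [zero_pow hp.ne_zero, mul_zero] at e2
        exact u.ne_zero e2
      refine ⟨Units.mk0 l hl0, ?_⟩
      ext
      rw [e2]
      rfl
    · obtain ⟨l, hl⟩ := lf_pow (m := m) h hp hζ hm
      have e2 : (v : Lf F W) = algebraMap F (Lf F W) g * l ^ p := by rw [hl, hv]
      have hl0 : l ≠ 0 := by
        rintro rfl
        rw [zero_pow hp.ne_zero, mul_zero] at e2
        exact v.ne_zero e2
      refine ⟨Units.mk0 l hl0, ?_⟩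
      ext
      rw [e2]
      rfl
  rcases le_total (W.valuation (((v : Lf F W) : K))) (W.valuation ((u : Lf F W) : K)) with hle | hle
  · exact key u v huv hle
  · obtain ⟨f, g, hfg, h1, h2⟩ := key v u (by rw [add_comm]; exact huv) hle
    exact ⟨g, f, by rw [add_comm]; exact hfg, h2, h1⟩

/-- the elements of `F*` which are `p`-th powers in the decomposition field -/
lemma lf_TR (h : PCl p F K) (hp : p.Prime) (hζ : IsPrimitiveRoot ζ p)
    (htop : Top ζ (W.comap (algebraMap F K))) {t : Fˣ}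
    (ht : ∃ c : (Lf F W)ˣ, io F (Lf F W) t = c ^ p) : t ∈ TR p ζ (W.comap (algebraMap F K)) := by
  obtain ⟨c, hc⟩ := ht
  rw [← v3 h hp hζ htop]
  refine ⟨((c : Lf F W) : K), mem_Lf.1 (c : Lf F W).2, ?_⟩
  have := congrArg (fun x : (Lf F W)ˣ => ((x : Lf F W) : K)) hc
  exact this.symm

/-- **SINGLE** from the absence of orthogonal products over the decomposition field -/
theorem single_lf (h : PCl p F K) (hp : p.Prime) (hζ : IsPrimitiveRoot ζ p)
    (htop : Top ζ (W.comap (algebraMap F K))) {I : Type} [Finite I] {T : I → Subgroup Fˣ}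
    (hT : Pool.Agent.Helper24.ETC.Glue p T) (hne : TR p ζ (W.comap (algebraMap F K)) ≠ ⊤)
    (hloc : NoSplit p (Sy (pw (Lf F W) p))) :
    ∃ i, T i ≤ TR p ζ (W.comap (algebraMap F K)) := by
  obtain ⟨i, hi⟩ := single_ext (L := Lf F W) hT (lf_surj h hp hζ htop) (lf_approx h hp hζ htop)
    hloc (by
      by_contra hcon
      push Not at hcon
      apply hne
      rw [eq_top_iff]
      intro t _
      exact lf_TR h hp hζ htop (hcon _))
  exact ⟨i, fun t ht => lf_TR h hp hζ htop (hi t ht)⟩

end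

end Pool.Agent.Helper24.ETC
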