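import Pool.Agent.Helper24.ETC.Sep

set_option autoImplicit false

/-! The symbols at a place of residue characteristic different from `p` are nondegenerate and
indecomposable; some component is contained in `T(R)`. -/

namespace Pool.Agent.Helper24.ETC

open scoped TensorProduct
open Pool.Agent.ETC
open Pool.Agent.Helper58.ET (St Ns)
open Pool.Agent.Helper39.ET2 (Nd Split Indec)

section st

variable {F : Type} [Field F] {A : Type} [CommGroup A] {φ : Fˣ →* A}

lemma st_sum {u v : Fˣ} (h : (u : F) + v = 1) :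
    Additive.ofMul (φ u) ⊗ₜ[ℤ] Additive.ofMul (φ v) ∈ St φ :=
  AddSubgroup.subset_closure ⟨u, v, h, rfl⟩

/-- `{u, -u} = 0` -/
lemma st_neg_self (u : Fˣ) : Additive.ofMul (φ u) ⊗ₜ[ℤ] Additive.ofMul (φ (-u)) ∈ St φ := by
  by_cases hu1 : u = 1
  · rw [hu1, map_one, ofMul_one, TensorProduct.zero_tmul]
    exact zero_mem _
  have hu0 : (u : F) ≠ 0 := u.ne_zero
  have h0 : (1 : F) - u ≠ 0 := by
    intro e
    apply hu1
    ext
    rw [Units.val_one]
    linear_combination (-1) * e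
  obtain ⟨w, hw⟩ : ∃ w : Fˣ, (w : F) = 1 - u := ⟨Units.mk0 _ h0, Units.val_mk0 _⟩
  have h1 : Additive.ofMul (φ u) ⊗ₜ[ℤ] Additive.ofMul (φ w) ∈ St φ :=
    st_sum (by rw [hw]; ring)
  have h2 : Additive.ofMul (φ u⁻¹) ⊗ₜ[ℤ] Additive.ofMul (φ (w / -u)) ∈ St φ :=
    st_sum (by
      rw [Units.val_div_eq_div_val, hw, Units.val_neg, Units.val_inv_eq_inv_val]
      field_simp
      ring)
  have e : Additive.ofMul (φ u) ⊗ₜ[ℤ] Additive.ofMul (φ (-u)) =
      Additive.ofMul (φ u) ⊗ₜ[ℤ] Additive.ofMul (φ w) +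
        Additive.ofMul (φ u⁻¹) ⊗ₜ[ℤ] Additive.ofMul (φ (w / -u)) := by
    rw [map_inv, ofMul_inv, TensorProduct.neg_tmul, map_div, ofMul_div, TensorProduct.tmul_sub]
    abel
  rw [e]
  exact add_mem h1 h2

/-- `{u, v} = - {v, u}` -/
lemma st_anti (u v : Fˣ) : Additive.ofMul (φ u) ⊗ₜ[ℤ] Additive.ofMul (φ v) +
    Additive.ofMul (φ v) ⊗ₜ[ℤ] Additive.ofMul (φ u) ∈ St φ := by
  have hn : ∀ w : Fˣ, φ (-w) = φ (-1) * φ w := by
    intro w
    rw [← map_mul]
    congr 1
    ext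
    simp
  have h1 := st_neg_self (φ := φ) (u * v)
  have h2 := st_neg_self (φ := φ) u
  have h3 := st_neg_self (φ := φ) v
  rw [hn, map_mul, ofMul_mul, ofMul_mul, ofMul_mul, TensorProduct.tmul_add,
    TensorProduct.tmul_add, TensorProduct.add_tmul, TensorProduct.add_tmul,
    TensorProduct.add_tmul] at h1
  rw [hn, ofMul_mul, TensorProduct.tmul_add] at h2 h3
  have h4 := sub_mem (sub_mem h1 h2) h3
  have e : Additive.ofMul (φ u) ⊗ₜ[ℤ] Additive.ofMul (φ v) +
      Additive.ofMul (φ v) ⊗ₜ[ℤ] Additive.ofMul (φ u) =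
      Additive.ofMul (φ u) ⊗ₜ[ℤ] Additive.ofMul (φ (-1)) +
        Additive.ofMul (φ v) ⊗ₜ[ℤ] Additive.ofMul (φ (-1)) +
      (Additive.ofMul (φ u) ⊗ₜ[ℤ] Additive.ofMul (φ u) +
        Additive.ofMul (φ v) ⊗ₜ[ℤ] Additive.ofMul (φ u) +
      (Additive.ofMul (φ u) ⊗ₜ[ℤ] Additive.ofMul (φ v) +
        Additive.ofMul (φ v) ⊗ₜ[ℤ] Additive.ofMul (φ v))) -
      (Additive.ofMul (φ u) ⊗ₜ[ℤ] Additive.ofMul (φ (-1)) +
        Additive.ofMul (φ u) ⊗ₜ[ℤ] Additive.ofMul (φ u)) -
      (Additive.ofMul (φ v) ⊗ₜ[ℤ] Additive.ofMul (φ (-1)) +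
        Additive.ofMul (φ v) ⊗ₜ[ℤ] Additive.ofMul (φ v)) := by
    abel
  rw [e]
  exact h4

end st

section sy

variable {F : Type} [Field F] {T T' : Subgroup Fˣ}

lemma sy_symm {a b : Fˣ} (h : Sy T a b) : Sy T b a := by
  have h1 := sub_mem (st_anti (φ := cl T) a b) h
  rwa [add_sub_cancel_left] at h1

lemma sy_sum {u v : Fˣ} (h : (u : F) + v = 1) : Sy T u v := st_sum h

lemma sy_neg_self (u : Fˣ) : Sy T u (-u) := st_neg_self u

lemma sy_mul {a b c : Fˣ} (h1 : Sy T a b) (h2 : Sy T a c) : Sy T a (b * c) := by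
  rw [sy_iff] at h1 h2 ⊢
  rw [map_mul]
  exact mul_mem h1 h2

lemma sy_div {a b c : Fˣ} (h1 : Sy T a b) (h2 : Sy T a c) : Sy T a (b / c) := by
  rw [sy_iff] at h1 h2 ⊢
  rw [map_div]
  exact div_mem h1 h2

lemma sy_mem {a b : Fˣ} (h : b ∈ T) : Sy T a b := by
  rw [sy_iff, cl_eq_one.2 h]
  exact one_mem _

lemma sy_mem' {a b : Fˣ} (h : a ∈ T) : Sy T a b := sy_symm (sy_mem h)

lemma sy_congr {a b a' b' : Fˣ} (h1 : a / a' ∈ T) (h2 : b / b' ∈ T) (h : Sy T a b) :
    Sy T a' b' := by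
  unfold Sy at h ⊢
  have e1 : cl T a = cl T a' := by rwa [← cl_eq_one, map_div, div_eq_one] at h1
  have e2 : cl T b = cl T b' := by rwa [← cl_eq_one, map_div, div_eq_one] at h2
  rwa [← e1, ← e2]

/-- symbols modulo a smaller group -/
lemma sy_mono (hT : T ≤ T') {a b : Fˣ} (h : Sy T a b) : Sy T' a b := by
  obtain ⟨π, hπ⟩ : ∃ π : Cl T →* Cl T', ∀ u : Fˣ, π (cl T u) = cl T' u :=
    ⟨QuotientGroup.map T T' (MonoidHom.id _) hT, fun u => rfl⟩
  obtain ⟨P, hP⟩ : ∃ P : Additive (Cl T) ⊗[ℤ] Additive (Cl T) →ₗ[ℤ]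
      Additive (Cl T') ⊗[ℤ] Additive (Cl T'),
      ∀ a b : Cl T, P (Additive.ofMul a ⊗ₜ[ℤ] Additive.ofMul b) =
        Additive.ofMul (π a) ⊗ₜ[ℤ] Additive.ofMul (π b) :=
    ⟨TensorProduct.map (MonoidHom.toAdditive π).toIntLinearMap
      (MonoidHom.toAdditive π).toIntLinearMap, fun a b => rfl⟩
  have hPS : ∀ z ∈ St (cl T), P z ∈ St (cl T') := by
    intro z hz
    unfold St at hz
    induction hz using AddSubgroup.closure_induction with
    | mem z hz =>
      obtain ⟨u, v, huv, rfl⟩ := hz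
      rw [hP, hπ, hπ]
      exact st_sum huv
    | zero => rw [map_zero]; exact zero_mem _
    | add a b _ _ ha hb => rw [map_add]; exact add_mem ha hb
    | neg a _ ha => rw [map_neg]; exact neg_mem ha
  have h1 := hPS _ h
  rwa [hP, hπ, hπ] at h1

end sy

section ndi

variable {F : Type} [Field F] {p : ℕ} {ζ : F} {R : ValuationSubring F}

/-- the value of an element is in `p Γ` or not -/
lemma unit_or (x : Fˣ) : (∃ f : Fˣ, R.valuation (x : F) = R.valuation (f : F) ^ p) ∨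
    ∀ f : Fˣ, R.valuation ((x * f ^ p : Fˣ) : F) ≠ 1 := by
  by_cases h : ∃ f : Fˣ, R.valuation ((x * f ^ p : Fˣ) : F) = 1
  · left
    obtain ⟨f, hf⟩ := h
    refine ⟨f⁻¹, ?_⟩
    have hf0 : R.valuation (f : F) ≠ 0 := (Valuation.ne_zero_iff _).2 f.ne_zero
    rw [Units.val_mul, Units.val_pow_eq_pow_val, map_mul, map_pow] at hf
    rw [Units.val_inv_eq_inv_val, map_inv₀, inv_pow]
    exact eq_inv_of_mul_eq_one_left hf
  · right
    push Not at h
    exact h

variable [Fact p.Prime]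

/-- the symbols at a place are nondegenerate -/
theorem nd_place (hl : R.valuation (1 - ζ) = 1) (h : V1 p ζ R) :
    Nd (cl (TR p ζ R)) (Ns (cl (TR p ζ R))) where
  surj := cl_surj _
  symm := by
    intro a b hab
    obtain ⟨a, rfl⟩ := cl_surj _ a
    obtain ⟨b, rfl⟩ := cl_surj _ b
    exact sy_symm hab
  sum := fun u v huv => sy_sum huv
  nd := by
    intro g hg
    obtain ⟨x, rfl⟩ := cl_surj _ g
    rw [cl_eq_one]
    have hx : ∀ y : Fˣ, Sy (TR p ζ R) x y := fun y => sy_symm (hg (cl _ y))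
    rcases unit_or (p := p) (R := R) x with h1 | h1
    · obtain ⟨c, hc⟩ := h.nu
      exact ns_unit hl hc h1 (hx c)
    · obtain ⟨y, hy⟩ := h.nc (-x)
      obtain ⟨n, hn⟩ := ns_ram hl h1 (hx y)
      exact absurd hn (hy n)

lemma zpow_mem_pow {T : Subgroup Fˣ} {x y : Fˣ} {n : ℕ} (h : y / x ^ n ∈ T) :
    cl T y ∈ Subgroup.zpowers (cl T x) := by
  rw [← cl_eq_one, map_div, div_eq_one, map_pow] at h
  rw [h]
  exact Subgroup.npow_mem_zpowers _ _

/-- the symbols at a place are indecomposable, if `-1 ∈ T(R)` or there are further classes -/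
theorem indec_place (hl : R.valuation (1 - ζ) = 1) (h : V1 p ζ R)
    (hex : -1 ∈ TR p ζ R ∨ ∀ c : Fˣ, ∃ y : Fˣ, y ∉ TR p ζ R ∧ -y ∉ TR p ζ R ∧
      c * y ∉ TR p ζ R ∧ -(c * y) ∉ TR p ζ R) :
    Indec (cl (TR p ζ R)) (Ns (cl (TR p ζ R))) := by
  have key : ∀ H K : Subgroup (Cl (TR p ζ R)),
      Split (cl (TR p ζ R)) (Ns (cl (TR p ζ R))) H K →
      ∀ x : Fˣ, cl (TR p ζ R) x ∈ H →
        (∀ f : Fˣ, R.valuation ((x * f ^ p : Fˣ) : F) ≠ 1) → K = ⊥ := by
    intro H K hS x hx hxv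
    have h1 : ∀ k ∈ K, k ∈ Subgroup.zpowers (cl (TR p ζ R) (-x)) := by
      intro k hk
      obtain ⟨y, rfl⟩ := cl_surj _ k
      obtain ⟨n, hn⟩ := ns_ram hl hxv (hS.orth _ hx _ hk)
      exact zpow_mem_pow hn
    rcases hex with hex | hex
    · have e : cl (TR p ζ R) (-x) = cl (TR p ζ R) x := by
        rw [cl_neg, cl_eq_one.2 hex, one_mul]
      rw [eq_bot_iff]
      intro k hk
      have h2 := h1 k hk
      rw [e] at h2
      have h3 : k ∈ H := (Subgroup.zpowers_le.2 hx) h2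
      rw [← hS.inf]
      exact ⟨h3, hk⟩
    · -- `p = 2`
      by_contra hK
      have hp2 : p = 2 := by
        by_contra hp
        have hodd : Odd p := (Fact.out : p.Prime).odd_of_ne_two hp
        obtain ⟨y, hy1, hy2, -⟩ := hex 1
        have hneg : (-1 : Fˣ) ∈ TR p ζ R :=
          Subgroup.mem_sup_left ⟨-1, by rw [powMonoidHom_apply, hodd.neg_one_pow]⟩
        -- the first case again
        have e : cl (TR p ζ R) (-x) = cl (TR p ζ R) x := by
          rw [cl_neg, cl_eq_one.2 hneg, one_mul]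
        apply hK
        rw [eq_bot_iff]
        intro k hk
        have h2 := h1 k hk
        rw [e] at h2
        have h3 : k ∈ H := (Subgroup.zpowers_le.2 hx) h2
        rw [← hS.inf]
        exact ⟨h3, hk⟩
      subst hp2
      -- `K` is generated by the class of `-x`
      have hxK : cl (TR 2 ζ R) (-x) ∈ K := by
        obtain ⟨k, hk, hk1⟩ := K.bot_or_exists_ne_one.resolve_left hK
        obtain ⟨n, hn⟩ := h1 _ hk
        have h2 : cl (TR 2 ζ R) (-x) ^ (2 : ℕ) = 1 := cl_pow _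
        rcases Int.even_or_odd' n with ⟨m, hm | hm⟩
        · exfalso
          apply hk1
          rw [← hn]
          change cl (TR 2 ζ R) (-x) ^ n = 1
          rw [hm, zpow_mul, zpow_ofNat, h2, one_zpow]
        · have h3 : cl (TR 2 ζ R) (-x) ^ n = cl (TR 2 ζ R) (-x) := by
            rw [hm, zpow_add, zpow_mul, zpow_ofNat, h2, one_zpow, one_mul, zpow_one]
          have h4 : cl (TR 2 ζ R) (-x) ^ n = k := hn
          rw [← h3, h4]
          exact hk
      -- `-x` is not in `p Γ` either, so `H` is generated by the class of `x`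
      have hxv' : ∀ f : Fˣ, R.valuation ((-x * f ^ 2 : Fˣ) : F) ≠ 1 := by
        intro f
        have := hxv f
        rw [Units.val_mul] at this ⊢
        rwa [Units.val_neg, neg_mul, Valuation.map_neg]
      have h5 : ∀ g ∈ H, g ∈ Subgroup.zpowers (cl (TR 2 ζ R) x) := by
        intro g hg
        obtain ⟨y, rfl⟩ := cl_surj _ g
        obtain ⟨n, hn⟩ := ns_ram hl hxv' (sy_symm (hS.orth _ hg _ hxK))
        rw [neg_neg] at hn
        exact zpow_mem_pow hn
      obtain ⟨y, hy1, hy2, hy3, hy4⟩ := hex x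
      have h6 : cl (TR 2 ζ R) y ∈ H ⊔ K := by rw [hS.sup]; exact Subgroup.mem_top _
      rw [Subgroup.mem_sup] at h6
      obtain ⟨a, ha, b, hb, hab⟩ := h6
      have hcase : ∀ z w : Cl (TR 2 ζ R), w ∈ Subgroup.zpowers z → w = 1 ∨ w = z := by
        rintro z w ⟨n, rfl⟩
        have h2 : z ^ (2 : ℕ) = 1 := cl_pow _
        rcases Int.even_or_odd' n with ⟨m, hm | hm⟩
        · left
          change z ^ n = 1
          rw [hm, zpow_mul, zpow_ofNat, h2, one_zpow]
        · right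
          change z ^ n = z
          rw [hm, zpow_add, zpow_mul, zpow_ofNat, h2, one_zpow, one_mul, zpow_one]
      have hsq : ∀ z : Fˣ, cl (TR 2 ζ R) z * cl (TR 2 ζ R) z = 1 := by
        intro z
        rw [← sq]
        exact cl_pow _
      rcases hcase _ _ (h5 a ha) with rfl | rfl <;>
        rcases hcase _ _ (h1 b hb) with rfl | rfl
      · apply hy1
        rw [← cl_eq_one, ← hab, one_mul]
      · apply hy4
        rw [← cl_eq_one, ← neg_mul, map_mul, ← hab, one_mul, hsq]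
      · apply hy3
        rw [← cl_eq_one, map_mul, ← hab, mul_one, hsq]
      · apply hy2
        have e : cl (TR 2 ζ R) (-1) * (cl (TR 2 ζ R) x * (cl (TR 2 ζ R) (-1) * cl (TR 2 ζ R) x)) =
            (cl (TR 2 ζ R) (-1) * cl (TR 2 ζ R) (-1)) * (cl (TR 2 ζ R) x * cl (TR 2 ζ R) x) := by
          rw [mul_left_comm (cl (TR 2 ζ R) x), mul_assoc]
        rw [← cl_eq_one, cl_neg, ← hab, cl_neg x, e, hsq, hsq, one_mul]
  intro H K hS
  obtain ⟨c, hc⟩ := h.nu
  have h1 : cl (TR p ζ R) c ∈ H ⊔ K := by rw [hS.sup]; exact Subgroup.mem_top _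
  rw [Subgroup.mem_sup] at h1
  obtain ⟨a, ha, b, hb, hab⟩ := h1
  obtain ⟨x, rfl⟩ := cl_surj _ a
  obtain ⟨y, rfl⟩ := cl_surj _ b
  rcases unit_or (p := p) (R := R) x with h2 | h2
  · rcases unit_or (p := p) (R := R) y with h3 | h3
    · exfalso
      obtain ⟨f, hf⟩ := h2
      obtain ⟨e, he⟩ := h3
      have h4 : c / (x * y) ∈ TR p ζ R := by
        rw [← cl_eq_one, map_div, map_mul, hab, div_self']
      obtain ⟨d, hd⟩ := val_TR hl h4
      apply hc (f * e * d)⁻¹
      have hx0 : R.valuation (x : F) ≠ 0 := (Valuation.ne_zero_iff _).2 x.ne_zero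
      have hy0 : R.valuation (y : F) ≠ 0 := (Valuation.ne_zero_iff _).2 y.ne_zero
      have hd0 : R.valuation (d : F) ≠ 0 := (Valuation.ne_zero_iff _).2 d.ne_zero
      have hf0 : R.valuation (f : F) ≠ 0 := (Valuation.ne_zero_iff _).2 f.ne_zero
      have he0 : R.valuation (e : F) ≠ 0 := (Valuation.ne_zero_iff _).2 e.ne_zero
      rw [Units.val_div_eq_div_val, map_div₀, Units.val_mul, map_mul,
        div_eq_iff (mul_ne_zero hx0 hy0)] at hd
      rw [Units.val_mul, Units.val_pow_eq_pow_val, Units.val_inv_eq_inv_val, map_mul, map_pow,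
        map_inv₀, hd, hf, he, Units.val_mul, Units.val_mul, map_mul, map_mul, inv_pow, mul_pow,
        mul_pow, mul_comm (R.valuation (d : F) ^ p)]
      exact mul_inv_cancel₀ (mul_ne_zero (mul_ne_zero (pow_ne_zero _ hf0) (pow_ne_zero _ he0))
        (pow_ne_zero _ hd0))
    · left
      refine key K H ⟨by rw [sup_comm]; exact hS.sup, by rw [inf_comm]; exact hS.inf, ?_, ?_⟩ y hb h3
      · intro k hk g hg
        obtain ⟨k, rfl⟩ := cl_surj _ k
        obtain ⟨g, rfl⟩ := cl_surj _ g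
        exact sy_symm (hS.orth _ hg _ hk)
      · intro u v huv k hk g hg k' hk' g' hg' hu hv
        have := hS.pr u v huv g hg k hk g' hg' k' hk' (by rw [hu, mul_comm]) (by rw [hv, mul_comm])
        exact ⟨this.2, this.1⟩
  · right
    exact key H K hS x ha h2

end ndi

end Pool.Agent.Helper24.ETC
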