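import Pool.Agent.Helper24.ETC.SingleP

set_option autoImplicit false

/-! The symbols at an ordering are nondegenerate and indecomposable. -/

namespace Pool.Agent.Helper24.ETC

open scoped TensorProduct
open Pool.Agent.ETC
open Pool.Agent.Helper58.ET (St Ns)
open Pool.Agent.Helper58.EU (Ordg)
open Pool.Agent.Helper39.ET2 (Nd Split Indec)

section

variable {F : Type} [Field F] {P : Subgroup Fˣ}

lemma ord_ne_top (hP : Ordg P) : P ≠ ⊤ := by
  intro h
  apply hP.neg
  rw [h]
  exact Subgroup.mem_top _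

lemma ord_sq (hP : Ordg P) (c : Fˣ) : c ^ 2 ∈ P := by
  rcases hP.tot c with h | h
  · exact pow_mem h 2
  · have := pow_mem h 2
    rwa [neg_sq] at this

lemma ord_pw (hP : Ordg P) : pw F 2 ≤ P := by
  rintro _ ⟨c, rfl⟩
  exact ord_sq hP c

/-- `u + v = 1` with `u, v` negative is impossible -/
lemma ord_not {u v : Fˣ} (hP : Ordg P) (huv : (u : F) + v = 1) (hu : -u ∈ P) (hv : -v ∈ P) :
    False := by
  have h1 : v / u ∈ P := by
    have := div_mem hv hu
    rwa [neg_div_neg_eq] at this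
  obtain ⟨z, hz, hzP⟩ := hP.add _ h1
  apply hP.neg
  have h2 : -u * z ∈ P := mul_mem hu hzP
  have h3 : -u * z = -1 := by
    ext
    have hu0 : (u : F) ≠ 0 := u.ne_zero
    rw [Units.val_mul, hz, Units.val_neg, Units.val_neg, Units.val_one, Units.val_div_eq_div_val]
    field_simp
    linear_combination (-1) * huv
  rwa [h3] at h2

/-- there is a functional with value `1` on `-1` -/
lemma ord_fun (hP : Ordg P) : ∃ h : Additive (Cl P) →+ ZMod 2,
    (∀ u ∈ P, h (Additive.ofMul (cl P u)) = 0) ∧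
    ∀ u : Fˣ, -u ∈ P → h (Additive.ofMul (cl P u)) = 1 := by
  obtain ⟨h, -, h1⟩ := exists_functional (p := 2) (V := Cl P) (by
    intro x
    obtain ⟨u, rfl⟩ := cl_surj _ x
    rw [← map_pow, cl_eq_one]
    exact ord_sq hP u) ⊥ (x := cl P (-1)) (by
    rw [Subgroup.mem_bot, cl_eq_one]
    exact hP.neg)
  have h0 : ∀ u ∈ P, h (Additive.ofMul (cl P u)) = 0 := by
    intro u hu
    rw [cl_eq_one.2 hu, ofMul_one, map_zero]
  refine ⟨h, h0, fun u hu => ?_⟩
  have e : u = -1 * -u := by ext; simp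
  rw [e, map_mul (cl P), ofMul_mul, map_add, h1, h0 _ hu, add_zero]

lemma ord_sy (hP : Ordg P) : ¬ Sy P (-1) (-1) := by
  obtain ⟨h, h0, h1⟩ := ord_fun hP
  obtain ⟨b, hb⟩ : ∃ b : Additive (Cl P) →ₗ[ℤ] Additive (Cl P) →ₗ[ℤ] ZMod 2,
      ∀ x y, b x y = h x * h y :=
    ⟨LinearMap.mk₂ ℤ (fun x y => h x * h y)
      (by intro a b c; simp only [map_add]; ring)
      (by intro c a b; simp only [map_zsmul, zsmul_eq_mul]; ring)
      (by intro a b c; simp only [map_add]; ring)
      (by intro c a b; simp only [map_zsmul, zsmul_eq_mul]; ring), fun _ _ => rfl⟩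
  have key : ∀ z ∈ St (cl P), TensorProduct.lift b z = 0 := by
    intro z hz
    unfold St at hz
    induction hz using AddSubgroup.closure_induction with
    | mem z hz =>
      obtain ⟨u, v, huv, rfl⟩ := hz
      rw [TensorProduct.lift.tmul, hb]
      rcases hP.tot u with hu | hu
      · rw [h0 u hu, zero_mul]
      · rcases hP.tot v with hv | hv
        · rw [h0 v hv, mul_zero]
        · exact (ord_not hP huv hu hv).elim
    | zero => rw [map_zero]
    | add x y _ _ hx hy => rw [map_add, hx, hy, add_zero]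
    | neg x _ hx => rw [map_neg, hx, neg_zero]
  intro hs
  have h2 := key _ hs
  rw [TensorProduct.lift.tmul, hb, h1 (-1) (by rw [neg_neg]; exact one_mem _), mul_one] at h2
  exact one_ne_zero h2

/-- every class is `1` or the class of `-1` -/
lemma ord_cases (hP : Ordg P) (a : Cl P) : a = 1 ∨ a = cl P (-1) := by
  obtain ⟨u, rfl⟩ := cl_surj _ a
  rcases hP.tot u with hu | hu
  · exact Or.inl (cl_eq_one.2 hu)
  · right
    have e : u = -1 * -u := by ext; simp
    rw [e, map_mul, cl_eq_one.2 hu, mul_one]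

theorem ord_nd (hP : Ordg P) : Nd (cl P) (Ns (cl P)) where
  surj := cl_surj _
  symm := by
    intro a b hab
    obtain ⟨a, rfl⟩ := cl_surj _ a
    obtain ⟨b, rfl⟩ := cl_surj _ b
    exact sy_symm hab
  sum := fun u v huv => sy_sum huv
  nd := by
    intro g hg
    rcases ord_cases hP g with h | h
    · exact h
    · exfalso
      apply ord_sy hP
      have := hg (cl P (-1))
      rw [h] at this
      exact this

theorem ord_indec (hP : Ordg P) : Indec (cl P) (Ns (cl P)) := by
  intro H K hS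
  by_contra hcon
  push Not at hcon
  obtain ⟨hH, hK⟩ := hcon
  obtain ⟨a, ha, ha1⟩ := H.bot_or_exists_ne_one.resolve_left hH
  obtain ⟨b, hb, hb1⟩ := K.bot_or_exists_ne_one.resolve_left hK
  have e1 := (ord_cases hP a).resolve_left ha1
  have e2 := (ord_cases hP b).resolve_left hb1
  have h1 : cl P (-1) ∈ H ⊓ K := ⟨e1 ▸ ha, e2 ▸ hb⟩
  rw [hS.inf, Subgroup.mem_bot, cl_eq_one] at h1
  exact hP.neg h1

/-- **SINGLE** for orderings -/
theorem single_ord {I : Type} [Finite I] (T : I → Subgroup Fˣ)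
    (hsy : ∀ a b : Fˣ, (∀ i, Sy (T i) a b) → Sy (pw F 2) a b)
    (hsy' : ∀ a b : Fˣ, Sy (pw F 2) a b → ∀ i, Sy (T i) a b)
    (hsurj : ∀ x : I → Fˣ, ∃ y : Fˣ, ∀ i, y / x i ∈ T i) (hP : Ordg P) :
    ∃ i, T i ≤ P := by
  classical
  exact single T hsy hsy' hsurj (ord_pw hP) (ord_ne_top hP) (ord_nd hP) (ord_indec hP)

end

end Pool.Agent.Helper24.ETC
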