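import Pool.Agent.Helper24.ETC.LF
import Pool.Agent.Helper48.ETC.Nrm2
import Pool.Agent.Helper95.EC.K2M

set_option autoImplicit false

/-! The decomposition field of a `p`-adic place has no orthogonal products. -/

namespace Pool.Agent.Helper24.ETC

open scoped TensorProduct
open Polynomial
open Pool.Agent.ETC
open Pool.Agent.Helper48.ETC (Wl Nsy)
open Pool.Agent.Y920.EP (nmG)

section

variable {E : Type} [Field E] {p : ℕ}

/-- the system of norm groups is good at a `p`-adic henselian place -/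
theorem nsy_nm (hp : p.Prime) {ζ : Eˣ} (hζ : IsPrimitiveRoot ζ p) {O : ValuationSubring E}
    {ϖ : Eˣ} (W : Wl p ζ O ϖ) (hsymm : ∀ a b : Eˣ, b ∈ nmG p a → a ∈ nmG p b)
    (hst : ∀ u v : Eˣ, (u : E) + v = 1 → v ∈ nmG p u)
    (hpow : ∀ a c : Eˣ, c ^ p ∈ nmG p a) : Nsy p ζ O (nmG p) where
  symm := hsymm
  pow := hpow
  sum := hst
  unr := by
    intro t ht htp z hz
    obtain ⟨yu, hyu⟩ := hz
    have hy : Algebra.norm E (yu : AdjoinRoot (X ^ p - C (t : E))) = (z : E) :=
      congrArg Units.val hyu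
    have hl0 := Pool.Agent.Helper58.ET.lam_ne hp hζ
    have hlp : (1 - (ζ : E)) ^ p ≠ 0 := pow_ne_zero _ hl0
    have hlv : 0 < O.valuation ((1 - (ζ : E)) ^ p) :=
      zero_lt_iff.2 ((Valuation.ne_zero_iff _).2 hlp)
    obtain ⟨x, hx⟩ : ∃ x : E, (t : E) = 1 + (1 - (ζ : E)) ^ p * x :=
      ⟨((t : E) - 1) / (1 - (ζ : E)) ^ p, by rw [mul_div_cancel₀ _ hlp]; ring⟩
    have hxv : O.valuation x ≤ 1 := by
      rw [hx, add_sub_cancel_left, map_mul, ← map_pow] at ht
      exact (mul_le_iff_le_one_right hlv).1 ht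
    have hy0 : (yu : AdjoinRoot (X ^ p - C (t : E))) ≠ 0 := by
      intro e
      rw [e] at hy
      have _ : Nontrivial (AdjoinRoot (X ^ p - C (t : E))) := by
        apply Module.nontrivial_of_finrank_pos (R := E)
        rw [Pool.Agent.Helper48.ETC.finrank_xpa hp.ne_zero]
        exact hp.pos
      have _ : Module.Finite E (AdjoinRoot (X ^ p - C (t : E))) :=
        (Pool.Agent.Helper48.ETC.xpa_monic hp.ne_zero _).finite_adjoinRoot
      rw [Algebra.norm_zero] at hy
      exact z.ne_zero hy.symm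
    have key : ∀ (t' : E) (y : AdjoinRoot (X ^ p - C t')), t' = 1 + (1 - (ζ : E)) ^ p * x →
        y ≠ 0 → (∀ θ : E, θ ^ p ≠ t') →
          ∃ c : E, c ≠ 0 ∧ O.valuation (Algebra.norm E y) = O.valuation c ^ p := by
      rintro t' y rfl hy h
      exact Pool.Agent.Helper48.ETC.unr_norm hp hζ O W.pv hxv W.hD h y hy
    obtain ⟨c, hc, hc1⟩ := key (t : E) _ hx hy0 (by
      intro θ hθ
      have hθ0 : θ ≠ 0 := by
        rintro rfl
        rw [zero_pow hp.ne_zero] at hθ
        exact t.ne_zero hθ.symm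
      apply htp (Units.mk0 θ hθ0)
      ext
      rw [Units.val_pow_eq_pow_val, Units.val_mk0, hθ])
    refine ⟨Units.mk0 c hc, ?_⟩
    rw [← hy, hc1, Units.val_mk0]

end

section

variable {F K : Type} [Field F] [Field K] [Algebra F K] {p : ℕ}
variable {ζ : F} {W : ValuationSubring K}

/-- the decomposition field of a `p`-adic place -/
theorem lf_wl (h : PCl p F K) (hp : p.Prime) (hζ : IsPrimitiveRoot ζ p)
    (htop : Top ζ (W.comap (algebraMap F K))) (hV : V2 p (W.comap (algebraMap F K)))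
    {z : (Lf F W)ˣ} (hz : (z : Lf F W) = algebraMap F (Lf F W) ζ) :
    ∃ ϖ : (Lf F W)ˣ, Wl p z (W.comap (algebraMap (Lf F W) K)) ϖ := by
  obtain ⟨π, hπ1, hπ2, ⟨e, he⟩, hπ3⟩ := hV.unif
  -- comparison of the valuations
  have cF : ∀ f g : F, (W.comap (algebraMap (Lf F W) K)).valuation (algebraMap F (Lf F W) f) ≤
      (W.comap (algebraMap (Lf F W) K)).valuation (algebraMap F (Lf F W) g) ↔
      (W.comap (algebraMap F K)).valuation f ≤ (W.comap (algebraMap F K)).valuation g := by
    intro f g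
    rw [← le_iff_le, ← le_iff_le]
    exact Iff.rfl
  have cF' : ∀ f g : F, (W.comap (algebraMap (Lf F W) K)).valuation (algebraMap F (Lf F W) f) <
      (W.comap (algebraMap (Lf F W) K)).valuation (algebraMap F (Lf F W) g) ↔
      (W.comap (algebraMap F K)).valuation f < (W.comap (algebraMap F K)).valuation g := by
    intro f g
    rw [← not_le, ← not_le, cF]
  have c1 : ∀ f : F, (W.comap (algebraMap (Lf F W) K)).valuation (algebraMap F (Lf F W) f) < 1 ↔
      (W.comap (algebraMap F K)).valuation f < 1 := by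
    intro f
    have := cF' f 1
    rwa [map_one, map_one, map_one] at this
  have ceq : ∀ f g : F, (W.comap (algebraMap F K)).valuation f =
      (W.comap (algebraMap F K)).valuation g →
      (W.comap (algebraMap (Lf F W) K)).valuation (algebraMap F (Lf F W) f) =
      (W.comap (algebraMap (Lf F W) K)).valuation (algebraMap F (Lf F W) g) := by
    intro f g hfg
    exact le_antisymm ((cF f g).2 hfg.le) ((cF g f).2 hfg.ge)
  -- values of elements of `L`
  have near : ∀ x : Lf F W, x ≠ 0 → ∃ (f : Fˣ) (m : Lf F W),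
      (W.comap (algebraMap (Lf F W) K)).valuation m < 1 ∧
      x = algebraMap F (Lf F W) f * (1 + m) := by
    intro x hx
    obtain ⟨f, m, hm, hxm⟩ := lf_near h hp hζ htop hx
    refine ⟨f, m, ?_, hxm⟩
    rw [← lt_one_iff']
    exact lt_of_lt_of_le hm (lam_pow_le hp hζ W)
  have vx : ∀ x : Lf F W, x ≠ 0 → ∃ f : Fˣ, (W.comap (algebraMap (Lf F W) K)).valuation x =
      (W.comap (algebraMap (Lf F W) K)).valuation (algebraMap F (Lf F W) f) := by
    intro x hx
    obtain ⟨f, m, hm, rfl⟩ := near x hx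
    exact ⟨f, by rw [map_mul, Valuation.map_one_add_of_lt _ hm, mul_one]⟩
  refine ⟨io F (Lf F W) π, ⟨?_, ?_, ?_, ?_, ?_, ?_, ?_⟩⟩
  · have := (c1 (p : F)).2 hV.pv
    rwa [map_natCast] at this
  · -- the residue field
    have _ := hV.fin
    obtain ⟨s, hs⟩ : ∃ s : IsLocalRing.ResidueField (W.comap (algebraMap F K)) →
        W.comap (algebraMap F K), ∀ r, IsLocalRing.residue _ (s r) = r :=
      ⟨Function.surjInv IsLocalRing.residue_surjective, Function.surjInv_eq _⟩
    refine Finite.of_surjective (α := IsLocalRing.ResidueField (W.comap (algebraMap F K)))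
      (fun r => IsLocalRing.residue (W.comap (algebraMap (Lf F W) K))
        ⟨algebraMap F (Lf F W) (s r : F), (s r).2⟩) ?_
    intro r
    obtain ⟨x, rfl⟩ := IsLocalRing.residue_surjective r
    by_cases hx : (W.comap (algebraMap (Lf F W) K)).valuation (x : Lf F W) < 1
    · refine ⟨0, ?_⟩
      have h1 : IsLocalRing.residue (W.comap (algebraMap (Lf F W) K)) x = 0 := by
        rw [IsLocalRing.residue_eq_zero_iff]
        exact (ValuationSubring.valuation_lt_one_iff _ _).2 hx
      rw [h1, IsLocalRing.residue_eq_zero_iff, ValuationSubring.valuation_lt_one_iff]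
      change (W.comap (algebraMap (Lf F W) K)).valuation (algebraMap F (Lf F W) _) < 1
      rw [c1, ← ValuationSubring.valuation_lt_one_iff, ← IsLocalRing.residue_eq_zero_iff]
      exact hs 0
    · have hx0 : (x : Lf F W) ≠ 0 := by
        intro e
        rw [e, map_zero] at hx
        exact hx zero_lt_one
      obtain ⟨f, m, hm, hxf⟩ := near _ hx0
      have hx1 : (W.comap (algebraMap (Lf F W) K)).valuation (x : Lf F W) = 1 :=
        le_antisymm ((ValuationSubring.valuation_le_one_iff _ _).2 x.2) (not_lt.1 hx)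
      have hfx : (W.comap (algebraMap (Lf F W) K)).valuation (algebraMap F (Lf F W) f) = 1 := by
        have := congrArg (W.comap (algebraMap (Lf F W) K)).valuation hxf
        rw [map_mul, Valuation.map_one_add_of_lt _ hm, mul_one, hx1] at this
        exact this.symm
      have hfm : (f : F) ∈ W.comap (algebraMap F K) := by
        have : algebraMap F (Lf F W) f ∈ W.comap (algebraMap (Lf F W) K) :=
          (ValuationSubring.valuation_le_one_iff _ _).1 hfx.le
        exact this
      have hs1 := hs (IsLocalRing.residue _ ⟨(f : F), hfm⟩)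
      refine ⟨IsLocalRing.residue _ ⟨(f : F), hfm⟩, ?_⟩
      change IsLocalRing.residue (W.comap (algebraMap (Lf F W) K)) ⟨algebraMap F (Lf F W)
        (s (IsLocalRing.residue _ ⟨(f : F), hfm⟩) : F), _⟩ = _
      generalize s (IsLocalRing.residue _ ⟨(f : F), hfm⟩) = s₀ at hs1 ⊢
      rw [← sub_eq_zero, ← map_sub, IsLocalRing.residue_eq_zero_iff] at hs1 ⊢
      rw [ValuationSubring.valuation_lt_one_iff] at hs1 ⊢
      have h2 : (W.comap (algebraMap F K)).valuation ((s₀ : F) - f) < 1 := hs1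
      change (W.comap (algebraMap (Lf F W) K)).valuation
        (algebraMap F (Lf F W) (s₀ : F) - (x : Lf F W)) < 1
      have e1 : algebraMap F (Lf F W) (s₀ : F) - (x : Lf F W) =
          algebraMap F (Lf F W) ((s₀ : F) - f) - algebraMap F (Lf F W) f * m := by
        rw [hxf, map_sub]
        ring
      rw [e1]
      refine Valuation.map_sub_lt _ ((c1 _).2 h2) ?_
      rw [map_mul, hfx, one_mul]
      exact hm
  · exact (c1 _).2 hπ1
  · intro x hx
    by_cases hx0 : x = 0
    · rw [hx0, map_zero]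
      exact zero_le
    · obtain ⟨f, hf⟩ := vx x hx0
      rw [hf] at hx ⊢
      exact (cF _ _).2 (hπ2 _ ((c1 _).1 hx))
  · refine ⟨e, ?_⟩
    have := (cF ((π : F) ^ e) (p : F)).2 (by rw [map_pow]; exact he)
    rw [map_pow, map_pow, map_natCast] at this
    exact this
  · intro x
    obtain ⟨f, hf⟩ := vx (x : Lf F W) x.ne_zero
    obtain ⟨g, n, hg⟩ := hπ3 f
    refine ⟨io F (Lf F W) g, n, ?_⟩
    have := ceq (f : F) ((g : F) ^ p * (π : F) ^ n) (by rw [hg, map_mul, map_pow, map_pow])
    rw [hf, this, map_mul, map_pow, map_pow, map_mul, map_pow, map_pow]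
    rfl
  · intro x hx
    have hx2 : W.valuation ((x - 1 : Lf F W) : K) < W.valuation (algebraMap F K (1 - ζ)) ^ p := by
      have h1 : (W.comap (algebraMap (Lf F W) K)).valuation (x - 1) <
          (W.comap (algebraMap (Lf F W) K)).valuation ((1 - algebraMap F (Lf F W) ζ) ^ p) := by
        rw [map_pow, ← hz]
        exact hx
      rw [← lt_iff_lt] at h1
      have e2 : algebraMap (Lf F W) K ((1 - algebraMap F (Lf F W) ζ) ^ p) =
          algebraMap F K (1 - ζ) ^ p := by
        rw [map_pow, map_sub, map_one, map_sub, map_one]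
        rfl
      rw [e2, map_pow] at h1
      exact h1
    obtain ⟨l, hl⟩ := lf_pow h hp hζ hx2
    exact ⟨l, by rw [hl]; ring⟩

/-- the decomposition field of a `p`-adic place has no orthogonal products -/
theorem lf_nosplit (h : PCl p F K) (hp : p.Prime) (hζ : IsPrimitiveRoot ζ p)
    (hL : PCl p (Lf F W) K)
    (htop : Top ζ (W.comap (algebraMap F K))) (hV : V2 p (W.comap (algebraMap F K))) :
    NoSplit p (Sy (pw (Lf F W) p)) := by
  have hfact : Fact p.Prime := ⟨hp⟩
  have hζL : IsPrimitiveRoot (algebraMap F (Lf F W) ζ) p :=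
    hζ.map_of_injective (algebraMap F (Lf F W)).injective
  obtain ⟨z, hz⟩ : ∃ z : (Lf F W)ˣ, (z : Lf F W) = algebraMap F (Lf F W) ζ :=
    ⟨Units.mk0 _ (hζL.ne_zero hp.ne_zero), Units.val_mk0 _⟩
  have hzp : IsPrimitiveRoot z p := by
    rw [← IsPrimitiveRoot.coe_units_iff, hz]
    exact hζL
  obtain ⟨ϖ, hw⟩ := lf_wl h hp hζ htop hV hz
  -- symbols which are zero are norms
  have k2 : ∀ a b : (Lf F W)ˣ, Sy (pw (Lf F W) p) a b → b ∈ nmG p a := by
    intro a b hab
    exact Pool.Agent.Helper95.EC.nm_of_st hL hζL (cl_surj (pw (Lf F W) p)) (by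
      intro u
      rw [cl_eq_one, mem_pw]
      exact ⟨fun ⟨c, hc⟩ => ⟨c, hc.symm⟩, fun ⟨c, hc⟩ => ⟨c, hc.symm⟩⟩) hab
  have hN : Nsy p z (W.comap (algebraMap (Lf F W) K)) (nmG p) :=
    nsy_nm hp hzp hw (fun a b hab => Pool.Agent.Helper95.EC.nm_symm hL hζL hab)
      (fun u v huv => Pool.Agent.Helper95.EC.nm_steinberg huv)
      (fun a c => k2 _ _ (sy_mem (mem_pw.2 ⟨c, rfl⟩)))
  intro X Y hX hY hsup horth hpr
  by_cases hc : ∀ x ∈ X, ∃ c : (Lf F W)ˣ, x = c ^ p
  · exact Or.inl hc
  · right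
    push Not at hc
    obtain ⟨x, hx, hxc⟩ := hc
    intro y hy
    obtain ⟨c, hc⟩ := hw.loc2 hp hzp hN hY hsup (fun x hx t ht => k2 _ _ (horth x hx t ht))
      (fun u v huv x hx t ht x' hx' t' ht' h1 h2 =>
        k2 _ _ (hpr u v huv x hx t ht x' hx' t' ht' h1 h2).1) ⟨x, hx, fun c e => hxc c e.symm⟩ y hy
    exact ⟨c, hc.symm⟩

end

end Pool.Agent.Helper24.ETC
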